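import Mathlib

open QuaternionGroup

namespace Pool.Agent.Results.MP_427463_al.Full

abbrev Q := QuaternionGroup 4
abbrev R := ℤ_[2]
abbrev L := Fin 8 → R

instance : TopologicalSpace Q := ⊥
instance : DiscreteTopology Q := ⟨rfl⟩

def bs (i : Fin 8) : Q := if i.val < 4 then a (i.val : ZMod 8) else xa ((i.val - 4 : ℕ) : ZMod 8)
def idx : Q → Fin 8
  | a k => ⟨k.val % 4, by omega⟩
  | xa k => ⟨4 + k.val % 4, by omega⟩
def sg : Q → ℤ
  | a k => if k.val < 4 then 1 else -1
  | xa k => if k.val < 4 then 1 else -1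
def σ (q : Q) (i : Fin 8) : Fin 8 := idx (q⁻¹ * bs i)
def s (q : Q) (i : Fin 8) : ℤ := sg (q⁻¹ * bs i)
def c : Q → ZMod 2
  | a _ => 0
  | xa _ => 1

lemma t1 : ∀ q r i, σ (q * r) i = σ r (σ q i) ∧ s (q * r) i = s q i * s r (σ q i) := by
  decide +kernel
lemma t2 : ∀ i, σ 1 i = i ∧ s 1 i = 1 ∧ σ (a 4) i = i ∧ s (a 4) i = -1 := by decide +kernel
lemma t3 : ∀ q r, c (q * r) = c q + c r := by decide +kernel
lemma t4 : ∀ q i, s q i = 1 ∨ s q i = -1 := by decide +kernel
lemma t5 : ∀ q : Q, q = 1 ∨ q = a 4 ∨ q * q = a 4 ∨ q * q * (q * q) = a 4 := by decide +kernel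
lemma t6 : ∀ q u v : Q, q * u = u * q → q * v = v * q → q = 1 ∨ q = a 4 ∨ u * v = v * u := by
  decide +kernel
lemma t7 : ∀ u v : Q, u * v = v * u ∨ ((u * v * u⁻¹ * v⁻¹ = a 2 ∨ u * v * u⁻¹ * v⁻¹ = a 6 ∨ u = a 2 ∨
    u = a 6 ∨ v = a 2 ∨ v = a 6 ∨ u * v = a 2 ∨ u * v = a 6) ∧ (c u = 1 ∨ c v = 1)) := by
  decide +kernel
lemma t8 : ∀ (q : Q) (f : Fin 8 → ZMod 2), c q = 1 → (∀ i, f (σ q i) = f i) →
    (∀ i, f (σ (a 2) i) = f i) → ∑ i, (if s q i = 1 then 0 else f (σ q i)) = 0 := by
  decide +kernel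
lemma t9 : ∀ i, σ (a 6) i = σ (a 2) i := by decide +kernel

noncomputable def act (q : Q) (f : L) : L := fun i => (s q i : R) * f (σ q i)

lemma act_mul (q r : Q) (f : L) : act (q * r) f = act q (act r f) := by
  funext i; simp [act, (t1 q r i).1, (t1 q r i).2, mul_assoc]
lemma act_one (f : L) : act 1 f = f := by funext i; simp [act, (t2 i).1, (t2 i).2.1]
lemma act_z (f : L) : act (a 4) f = -f := by funext i; simp [act, (t2 i).2.2.1, (t2 i).2.2.2]
lemma act_add (q : Q) (f g : L) : act q (f + g) = act q f + act q g := by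
  funext i; simp [act, mul_add]
lemma act_neg (q : Q) (f : L) : act q (-f) = -act q f := by funext i; simp [act]
lemma act_zero (q : Q) : act q 0 = 0 := by funext i; simp [act]

lemma free {q : Q} {f : L} (h : act q f = f) : q = 1 ∨ f = 0 := by
  have key : act (a 4) f = f → f = 0 := by
    intro h
    rw [act_z] at h
    funext i
    have := congrFun h i
    exact mul_left_cancel₀ (show (2 : R) ≠ 0 by norm_num)
      (by simp only [Pi.neg_apply, Pi.zero_apply] at *; linear_combination -this)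
  rcases t5 q with h1 | h1 | h1 | h1
  · exact Or.inl h1
  all_goals refine Or.inr (key ?_); rw [← h1]; simp only [act_mul, h]

noncomputable abbrev φ : R →+* ZMod 2 := PadicInt.toZMod

lemma φs (q : Q) (i : Fin 8) (x : R) : φ ((s q i : R) * x) = φ x := by
  rcases t4 q i with h | h <;> simp [h]

def σe (q : Q) : Fin 8 ≃ Fin 8 :=
  ⟨σ q, σ q⁻¹, fun i => by rw [← (t1 _ _ i).1, mul_inv_cancel, (t2 i).1],
    fun i => by rw [← (t1 _ _ i).1, inv_mul_cancel, (t2 i).1]⟩

lemma ε_act (q : Q) (f : L) : φ (∑ i, act q f i) = φ (∑ i, f i) := by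
  simp only [map_sum, act, φs]
  exact Equiv.sum_comp (σe q) fun i => φ (f i)

lemma closed0 : IsClosed {z : R | φ z = 0} := by
  have : {z : R | φ z = 0} = Metric.ball 0 1 := by
    ext z
    rw [Set.mem_ofPred_eq, ← RingHom.mem_ker, PadicInt.ker_toZMod, PadicInt.maximalIdeal_eq_span_p,
      Ideal.mem_span_singleton, mem_ball_zero_iff, PadicInt.norm_lt_one_iff_dvd]
  rw [this]
  exact IsUltrametricDist.isClosed_ball _ _

def S : Set (L × Q) := {p | φ (∑ i, p.1 i) = c p.2}
def G : Type := S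

noncomputable instance : TopologicalSpace G := inferInstanceAs (TopologicalSpace S)
instance : T2Space G := inferInstanceAs (T2Space S)
instance : TotallyDisconnectedSpace G := inferInstanceAs (TotallyDisconnectedSpace S)
instance : CompactSpace G := by
  have : IsClosed S := by
    have e : S = (fun p : L × Q => ∑ i, p.1 i - ((c p.2).val : R)) ⁻¹' {z | φ z = 0} := by
      ext p; simp [S, sub_eq_zero]
    rw [e]
    refine closed0.preimage (Continuous.sub (by fun_prop) ?_)
    exact (continuous_of_discreteTopology (f := fun q : Q => ((c q).val : R))).comp continuous_snd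
  exact isCompact_iff_compactSpace.1 this.isCompact

def G.f (x : G) : L := x.1.1
def G.q (x : G) : Q := x.1.2
lemma G.h (x : G) : φ (∑ i, x.f i) = c x.q := x.2
@[ext] lemma G.ext {x y : G} (h1 : x.f = y.f) (h2 : x.q = y.q) : x = y :=
  Subtype.ext (Prod.ext h1 h2)

noncomputable instance : Mul G := ⟨fun x y => ⟨(x.f + act x.q y.f, x.q * y.q), by
  show φ (∑ i, (x.f i + act x.q y.f i)) = c (x.q * y.q)
  rw [Finset.sum_add_distrib, map_add, ε_act, t3, x.h, y.h]⟩⟩
noncomputable instance : One G := ⟨⟨(0, 1), by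
  show φ (∑ _i : Fin 8, (0 : R)) = c 1
  rw [Finset.sum_const_zero, map_zero]; rfl⟩⟩
noncomputable instance : Inv G := ⟨fun x => ⟨(-act x.q⁻¹ x.f, x.q⁻¹), by
  show φ (∑ i, -(act x.q⁻¹ x.f i)) = c x.q⁻¹
  rw [Finset.sum_neg_distrib, map_neg, ε_act, x.h]
  generalize x.q = q
  revert q; decide +kernel⟩⟩

lemma mul_f (x y : G) : (x * y).f = x.f + act x.q y.f := rfl
lemma mul_q (x y : G) : (x * y).q = x.q * y.q := rfl

noncomputable instance : Group G := Group.ofLeftAxioms
  (fun x y z => G.ext (by simp only [mul_f, mul_q, act_add, act_mul, add_assoc]) (mul_assoc _ _ _))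
  (fun x => G.ext (by show 0 + act 1 x.f = x.f; rw [act_one, zero_add]) (one_mul _))
  (fun x => G.ext (neg_add_cancel _) (inv_mul_cancel _))

lemma cf : Continuous G.f := continuous_fst.comp continuous_subtype_val
lemma cq : Continuous G.q := continuous_snd.comp continuous_subtype_val
lemma cact : Continuous fun p : Q × L => act p.1 p.2 :=
  continuous_prod_of_discrete_left.2 fun q => by
    show Continuous fun (x : L) (i : Fin 8) => (s q i : R) * x (σ q i)
    fun_prop

instance : IsTopologicalGroup G where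
  continuous_mul := Continuous.subtype_mk (Continuous.prodMk
    ((cf.comp continuous_fst).add (cact.comp ((cq.comp continuous_fst).prodMk
      (cf.comp continuous_snd))))
    ((continuous_of_discreteTopology (f := fun p : Q × Q => p.1 * p.2)).comp
      ((cq.comp continuous_fst).prodMk (cq.comp continuous_snd)))) _
  continuous_inv := Continuous.subtype_mk (Continuous.prodMk
    (cact.comp (((continuous_of_discreteTopology (f := fun p : Q => p⁻¹)).comp cq).prodMk cf)).neg
    ((continuous_of_discreteTopology (f := fun p : Q => p⁻¹)).comp cq)) _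

noncomputable def π : G →* Q := MonoidHom.mk' G.q mul_q

lemma kcomm {x y : G} (hx : x.q = 1) (hy : y.q = 1) : x * y = y * x :=
  G.ext (by rw [mul_f, mul_f, hx, hy, act_one, act_one, add_comm]) (by rw [mul_q, mul_q, hx, hy])

lemma kfree {n g : G} (hn : n.q = 1) (h : Commute g n) : g.q = 1 ∨ n = 1 := by
  have := congrArg G.f h.eq
  rw [mul_f, mul_f, hn, act_one, add_comm] at this
  exact (free (add_right_cancel this)).imp id fun h => G.ext h hn

lemma zrel {g u : G} (hg : g.q = a 4) (h : Commute g u) (i : Fin 8) :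
    2 * u.f i = g.f i - (s u.q i : R) * g.f (σ u.q i) := by
  have := congrFun (congrArg G.f h.eq) i
  rw [mul_f, mul_f, hg, act_z] at this
  simp only [Pi.add_apply, Pi.neg_apply, act] at this
  linear_combination -this

lemma zinv {g u : G} (hg : g.q = a 4) (h : Commute g u) (i : Fin 8) :
    φ (g.f (σ u.q i)) = φ (g.f i) := by
  have := congrArg φ (zrel hg h i)
  rw [map_mul, map_sub, φs, map_ofNat, show (2 : ZMod 2) = 0 from rfl, zero_mul] at this
  exact (sub_eq_zero.1 this.symm).symm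

lemma zbad {g u w : G} (hg : g.q = a 4) (hu : Commute g u) (hw : Commute g w) (hc : c u.q = 1)
    (h2 : w.q = a 2 ∨ w.q = a 6) : False := by
  have h3 := t8 u.q (fun i => φ (g.f i)) hc (zinv hg hu) (fun i => by
    have := zinv hg hw i
    rcases h2 with h | h <;> rw [h] at this
    · exact this
    · rwa [t9] at this)
  have h4 : ∑ i, u.f i = ∑ i, (if s u.q i = 1 then 0 else g.f (σ u.q i)) := by
    apply mul_left_cancel₀ (show (2 : R) ≠ 0 by norm_num)
    rw [Finset.mul_sum, Finset.mul_sum, Finset.sum_congr rfl fun i _ => zrel hg hu i,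
      Finset.sum_sub_distrib, ← Equiv.sum_comp (σe u.q) g.f, ← Finset.sum_sub_distrib]
    refine Finset.sum_congr rfl fun i _ => ?_
    show g.f (σ u.q i) - _ = _
    rcases t4 u.q i with h | h <;> simp [h]
    ring
  have h5 := u.h
  rw [h4, map_sum, hc] at h5
  simp only [apply_ite φ, map_zero] at h5
  rw [h3] at h5
  exact zero_ne_one h5

lemma ca (g : G) (hg : g ≠ 1) (u v : G) (hu : Commute g u) (hv : Commute g v) : u * v = v * u := by
  by_cases h1 : g.q = 1
  · exact kcomm ((kfree h1 hu.symm).resolve_right hg) ((kfree h1 hv.symm).resolve_right hg)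
  have hk : Commute g (u * v * u⁻¹ * v⁻¹) :=
    ((hu.mul_right hv).mul_right hu.inv_right).mul_right hv.inv_right
  have fin : u.q * v.q = v.q * u.q → u * v = v * u := by
    intro h
    have e : (u * v * u⁻¹ * v⁻¹).q = 1 := by
      show u.q * v.q * u.q⁻¹ * v.q⁻¹ = 1
      rw [h]; group
    have := (kfree e hk).resolve_left h1
    rw [mul_inv_eq_one, mul_inv_eq_iff_eq_mul] at this
    exact this
  rcases t6 g.q u.q v.q (congrArg G.q hu.eq) (congrArg G.q hv.eq) with h | h | h
  · exact absurd h h1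
  · rcases t7 u.q v.q with h' | ⟨h2, h3⟩
    · exact fin h'
    · exfalso
      obtain ⟨w, hw, hw2⟩ : ∃ w : G, Commute g w ∧ (w.q = a 2 ∨ w.q = a 6) := by
        rcases h2 with h2 | h2 | h2 | h2 | h2 | h2 | h2 | h2
        exacts [⟨_, hk, Or.inl h2⟩, ⟨_, hk, Or.inr h2⟩, ⟨u, hu, Or.inl h2⟩, ⟨u, hu, Or.inr h2⟩,
          ⟨v, hv, Or.inl h2⟩, ⟨v, hv, Or.inr h2⟩, ⟨_, hu.mul_right hv, Or.inl h2⟩,
          ⟨_, hu.mul_right hv, Or.inr h2⟩]
      rcases h3 with h3 | h3
      exacts [zbad h hu hw h3 hw2, zbad h hv hw h3 hw2]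
  · exact fin h

theorem result : ∃ (G : Type) (_ : Group G) (_ : TopologicalSpace G), IsTopologicalGroup G ∧
    CompactSpace G ∧ T2Space G ∧ TotallyDisconnectedSpace G ∧
    (∀ g : G, g ≠ 1 → ∀ u ∈ Subgroup.centralizer {g}, ∀ v ∈ Subgroup.centralizer {g},
      u * v = v * u) ∧
    ∃ (N : Subgroup G) (_ : N.Normal), IsClosed (N : Set G) ∧ (∀ x ∈ N, ∀ y ∈ N, x * y = y * x) ∧
      Nonempty (G ⧸ N ≃* QuaternionGroup 4) := by
  refine ⟨G, inferInstance, inferInstance, inferInstance, inferInstance, inferInstance,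
    inferInstance, fun g hg u hu v hv => ca g hg u v (hu g rfl) (hv g rfl), π.ker, inferInstance,
    isClosed_singleton.preimage cq, fun x hx y hy => kcomm hx hy,
    ⟨QuotientGroup.quotientKerEquivOfSurjective π fun q => ?_⟩⟩
  refine ⟨⟨(Pi.single 0 ((c q).val : R), q), ?_⟩, rfl⟩
  show φ (∑ i, (Pi.single 0 ((c q).val : R) : L) i) = c q
  rw [Finset.sum_pi_single', if_pos (Finset.mem_univ _), map_natCast, ZMod.natCast_zmod_val]

end Pool.Agent.Results.MP_427463_al.Full
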